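import Mathlib
import Pool.Agent.Lib.helper7.PSLn

set_option autoImplicit false

namespace Pool.Agent.Results.MP_520f25_al.Exists

open Matrix Matrix.SpecialLinearGroup Pool.Agent.Lib.helper7.PSLn

/-- The group `C5 ⋊ C12`. -/
@[ext] structure K where
  i : ZMod 5
  j : ZMod 12
  deriving DecidableEq, Fintype

def e (j : ZMod 12) : ZMod 5 := 2 ^ j.val

theorem e_add : ∀ j j', e (j + j') = e j * e j' := by decide

instance : Mul K := ⟨fun a b => ⟨a.i + e a.j * b.i, a.j + b.j⟩⟩
instance : One K := ⟨⟨0, 0⟩⟩
instance : Inv K := ⟨fun a => ⟨-(e (-a.j) * a.i), -a.j⟩⟩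

instance : Group K := Group.ofLeftAxioms
  (fun a b c => K.ext (by
      show a.i + e a.j * b.i + e (a.j + b.j) * c.i = a.i + e a.j * (b.i + e b.j * c.i)
      rw [e_add]; ring) (add_assoc _ _ _))
  (by decide) (by decide)

def t5 : Equiv.Perm (Fin 5) := ⟨![1, 2, 3, 4, 0], ![4, 0, 1, 2, 3], by decide, by decide⟩
def m5 : Equiv.Perm (Fin 5) := ⟨![0, 2, 4, 1, 3], ![0, 3, 1, 4, 2], by decide, by decide⟩
def c5 : Equiv.Perm (Fin 5) := ⟨![1, 2, 0, 4, 3], ![2, 0, 1, 4, 3], by decide, by decide⟩

def f (k : K) : Equiv.Perm (Fin 5) := t5 ^ k.i.val * m5 ^ k.j.val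
def h (k : K) : Equiv.Perm (Fin 5) := c5 ^ k.j.val

theorem f_mul : ∀ a b, f (a * b) = f a * f b := by decide +kernel
theorem h_mul : ∀ a b, h (a * b) = h a * h b := by decide +kernel
theorem sg : ∀ a, Equiv.Perm.sign (f a * (h a)⁻¹) = 1 := by decide +kernel
theorem inj : ∀ a b, f a * (h a)⁻¹ = f b * (h b)⁻¹ → a = b := by decide +kernel

abbrev A5 := alternatingGroup (Fin 5)

def p (k : K) : A5 := ⟨f k * (h k)⁻¹, Equiv.Perm.mem_alternatingGroup.2 (sg k)⟩

theorem p_bij : Function.Bijective p := by
  rw [Fintype.bijective_iff_injective_and_card]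
  refine ⟨fun a b hab => inj a b (congrArg Subtype.val hab), ?_⟩
  rw [card_alternatingGroup]
  rfl

def lam (k : K) : A5 →* A5 := (MulAut.conjNormal (h k) : MulAut A5).toMonoidHom

theorem p_mul (a b : K) : p (a * b) = p a * lam a (p b) := by
  apply Subtype.ext
  show f (a * b) * (h (a * b))⁻¹ = f a * (h a)⁻¹ * (h a * (f b * (h b)⁻¹) * (h a)⁻¹)
  rw [f_mul, h_mul]
  group

abbrev F := GaloisField 2 12

theorem cardF : Nat.card F = 4096 := GaloisField.card 2 12 (by norm_num)

theorem exists_gen : ∃ g : Fˣ, orderOf g = 4095 := by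
  obtain ⟨g, hg⟩ := IsCyclic.exists_generator (α := Fˣ)
  refine ⟨g, ?_⟩
  rw [orderOf_eq_card_of_forall_mem_zpowers hg, Nat.card_units, cardF]

noncomputable def g0 : Fˣ := exists_gen.choose

theorem g0_ord : orderOf g0 = 4095 := exists_gen.choose_spec

noncomputable def z : Fˣ := g0 ^ 819

theorem z_ord : orderOf z = 5 := by
  rw [z, orderOf_pow' _ (by norm_num), g0_ord]
  norm_num

theorem pow_card (x : F) : x ^ 2 ^ 12 = x := by
  haveI := Fintype.ofFinite F
  have := FiniteField.pow_card x
  rwa [← Nat.card_eq_fintype_card, cardF] at this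

noncomputable def s (k : K) : F →+* F := iterateFrobenius F 2 k.j.val

theorem s_apply (k : K) (x : F) : s k x = x ^ 2 ^ k.j.val := rfl

theorem pow_mod (x : F) (n : ℕ) : x ^ 2 ^ (n % 12) = x ^ 2 ^ n := by
  conv_rhs => rw [← Nat.mod_add_div n 12]
  generalize n / 12 = q
  induction q with
  | zero => simp
  | succ q ih => rw [Nat.mul_succ, ← add_assoc, pow_add, pow_mul, pow_card, ih]

theorem s_mul (a b : K) (x : F) : s (a * b) x = s a (s b x) := by
  rw [s_apply, s_apply, s_apply, ← pow_mul, ← pow_add]
  show x ^ 2 ^ (a.j + b.j).val = _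
  rw [ZMod.val_add, pow_mod, add_comm]

noncomputable def u (k : K) (a : Fin 5) : Fˣ := if a = 0 then z ^ k.i.val else 1

theorem u_mul (a b : K) (x : Fin 5) : u (a * b) x = u a x * u b x ^ 2 ^ a.j.val := by
  unfold u
  split_ifs
  · rw [← pow_mul, ← pow_add, pow_eq_pow_iff_modEq, z_ord]
    revert a b
    decide +kernel
  · simp

noncomputable def D (k : K) : Matrix (Fin 5) (Fin 5) F := diagonal fun a => (u k a : F)
noncomputable def D' (k : K) : Matrix (Fin 5) (Fin 5) F := diagonal fun a => ((u k a)⁻¹ : Fˣ)

theorem DD' (k : K) : D k * D' k = 1 := by simp [D, D']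
theorem D'D (k : K) : D' k * D k = 1 := by simp [D, D']

abbrev SL5 := SpecialLinearGroup (Fin 5) F

noncomputable def T (k : K) : SL5 →* SL5 where
  toFun M := ⟨D k * (M.1.map (s k)) * D' k, by
    have h1 : (M.1.map (s k)).det = 1 := (Matrix.SpecialLinearGroup.map (s k) M).2
    rw [det_mul, det_mul, h1, mul_one, ← det_mul, DD', det_one]⟩
  map_one' := Subtype.ext (by simp [DD'])
  map_mul' M N := Subtype.ext (by
    show D k * ((M.1 * N.1).map (s k)) * D' k =
      D k * (M.1.map (s k)) * D' k * (D k * (N.1.map (s k)) * D' k)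
    rw [Matrix.map_mul]
    simp only [Matrix.mul_assoc]
    rw [← Matrix.mul_assoc (D' k), D'D, Matrix.one_mul])

theorem T_apply (k : K) (M : SL5) (a b : Fin 5) :
    (T k M).1 a b = u k a * s k (M.1 a b) * ((u k b)⁻¹ : Fˣ) := by
  show (D k * (M.1.map (s k)) * D' k) a b = _
  simp [D, D']

theorem T_one (M : SL5) : T 1 M = M := by
  apply Subtype.ext
  ext a b
  have : ∀ a, u 1 a = 1 := fun a => by
    unfold u
    split_ifs
    · exact pow_zero _
    · rfl
  rw [T_apply, this, this, s_apply]
  show _ * M.1 a b ^ 2 ^ 0 * _ = _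
  simp

theorem T_mul (a b : K) (M : SL5) : T (a * b) M = T a (T b M) := by
  apply Subtype.ext
  ext x y
  rw [T_apply, T_apply, T_apply, u_mul, u_mul, s_mul, map_mul, map_mul, s_apply a (u b x),
    s_apply a ((u b y)⁻¹ : Fˣ)]
  simp only [mul_inv, Units.val_mul, Units.val_pow_eq_pow_val, ← inv_pow]
  ring

theorem T_center (k : K) : Subgroup.center SL5 ≤ (Subgroup.center SL5).comap (T k) := by
  intro c hc
  rw [Subgroup.mem_comap, Subgroup.mem_center_iff]
  intro B
  have : B = T k (T k⁻¹ B) := by rw [← T_mul, mul_inv_cancel, T_one]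
  rw [this, ← map_mul, ← map_mul, Subgroup.mem_center_iff.1 hc]

abbrev S := ProjectiveSpecialLinearGroup (Fin 5) F

noncomputable def TT (k : K) : S →* S := QuotientGroup.map _ _ (T k) (T_center k)

noncomputable instance : MulDistribMulAction K S where
  smul k x := TT k x
  one_smul x := by
    obtain ⟨M, rfl⟩ := QuotientGroup.mk_surjective x
    exact congrArg QuotientGroup.mk (T_one M)
  mul_smul a b x := by
    obtain ⟨M, rfl⟩ := QuotientGroup.mk_surjective x
    exact congrArg QuotientGroup.mk (T_mul a b M)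
  smul_mul k := map_mul (TT k)
  smul_one k := map_one (TT k)

noncomputable def al : K →* MulAut S := MulDistribMulAction.toMulAut K S

theorem center_triv (c : SL5) (hc : c ∈ Subgroup.center SL5) (h2 : c * c = 1) : c = 1 := by
  obtain ⟨r, hr, e1⟩ := Matrix.SpecialLinearGroup.mem_center_iff.1 hc
  have h5 : c ^ 5 = 1 := by
    apply Subtype.ext
    rw [Matrix.SpecialLinearGroup.coe_pow, ← e1, ← map_pow]
    rw [Fintype.card_fin] at hr
    rw [hr, map_one]
    rfl
  have : c ^ 5 = c * (c * c) * (c * c) := by
    simp only [pow_succ, pow_zero, one_mul, mul_assoc]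
  rw [h5, h2] at this
  simpa using this.symm

theorem not_inner (k : K) (x : S) (hx : ∀ y : S, y * x = x * al k y) : k = 1 := by
  obtain ⟨M, rfl⟩ := QuotientGroup.mk_surjective x
  have key : ∀ (a b : Fin 5) (hab : a ≠ b) (c : F),
      transvection hab c * M = M * T k (transvection hab c) := by
    intro a b hab c
    set t := transvection hab c with ht
    have t2 : t * t = 1 := by
      rw [ht, ← transvection_add, CharTwo.add_self_eq_zero, transvection_coeff_zero]
    have h1 : (t * M)⁻¹ * (M * T k t) ∈ Subgroup.center SL5 := QuotientGroup.eq.1 (hx (t : S))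
    set c := (t * M)⁻¹ * (M * T k t) with hc
    have h3 : T k t = (M⁻¹ * t * M) * c := by rw [hc]; group
    have h4 : T k t * T k t = 1 := by rw [← map_mul, t2, map_one]
    have h5 := Subgroup.mem_center_iff.1 h1 (M⁻¹ * t * M)
    have h6 : c * c = 1 := by
      rw [h3, mul_assoc, ← mul_assoc c, ← h5] at h4
      rw [← h4]
      have : M⁻¹ * t * M * (M⁻¹ * t * M * c * c) = M⁻¹ * (t * t) * M * (c * c) := by group
      rw [this, t2]
      group
    rw [h3, center_triv c h1 h6]
    group
  have key2 : ∀ (a b : Fin 5) (hab : a ≠ b) (c : F),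
      single a b c * (M.1 * D k) = (M.1 * D k) * single a b (s k c) := by
    intro a b hab c
    have h1 := congrArg (fun N : SL5 => N.1 * D k) (key a b hab c)
    have h2 : (T k (transvection hab c)).1 = D k * (1 + single a b (s k c)) * D' k := by
      show D k * ((1 + single a b c).map (s k)) * D' k = _
      rw [Matrix.map_add _ (map_add _), Matrix.map_one _ (map_zero _) (map_one _),
        Matrix.map_single]
    simp only [Matrix.SpecialLinearGroup.coe_mul, h2, transvection_coe, Matrix.mul_assoc, D'D,
      Matrix.mul_one, Matrix.add_mul, Matrix.mul_add, Matrix.one_mul] at h1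
    simpa [Matrix.mul_assoc] using add_left_cancel h1
  obtain ⟨r, hr⟩ : M.1 * D k ∈ Set.range (scalar (Fin 5)) :=
    mem_range_scalar_of_commute_single fun a b hab => by
      have := key2 a b hab 1
      rwa [map_one] at this
  have hd : r ^ 5 = (z ^ k.i.val : Fˣ) := by
    have := congrArg det hr
    rw [det_mul, M.2, one_mul] at this
    simpa [D, u, Fin.prod_univ_five] using this
  have r0 : r ≠ 0 := by
    rintro rfl
    exact Units.ne_zero _ (hd.symm.trans (by simp))
  have hi : k.i = 0 := by
    have h1 : r ^ 4095 = 1 := by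
      have := pow_card r
      rw [show 2 ^ 12 = 4095 + 1 by norm_num, pow_succ] at this
      exact mul_left_eq_self₀.1 this |>.resolve_right r0
    have h2 : (z ^ k.i.val) ^ 819 = z ^ 0 := by
      apply Units.ext
      rw [Units.val_pow_eq_pow_val, ← hd, ← pow_mul, h1, pow_zero]
      rfl
    rw [← pow_mul, pow_eq_pow_iff_modEq, z_ord] at h2
    revert h2
    generalize k.i = i
    revert i
    decide
  have hj : k.j = 0 := by
    have h1 := congrFun (congrFun (key2 0 1 (by decide) g0) 0) 1
    rw [← hr] at h1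
    simp only [scalar_apply, mul_diagonal, diagonal_mul, single_apply_same] at h1
    have h2 : g0 ^ 1 = g0 ^ 2 ^ k.j.val := by
      apply Units.ext
      rw [mul_comm] at h1
      simpa [s_apply] using mul_left_cancel₀ r0 h1
    rw [pow_eq_pow_iff_modEq, g0_ord] at h2
    revert h2
    generalize k.j = j
    revert j
    decide
  exact K.ext hi hj

abbrev G := S ⋊[al] K

noncomputable def P : G ≃ S × A5 :=
  SemidirectProduct.equivProd.trans (Equiv.prodCongr (Equiv.refl S) (Equiv.ofBijective p p_bij))

noncomputable def Lam (a : G) : S × A5 →* S × A5 :=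
  (al a.right).toMonoidHom.prodMap (lam a.right)

theorem P_mul (a b : G) : P (a * b) = P a * Lam a (P b) :=
  Prod.ext rfl (p_mul a.right b.right)

def nu : K →* Multiplicative (ZMod 12) where
  toFun k := Multiplicative.ofAdd k.j
  map_one' := rfl
  map_mul' _ _ := rfl

/-- There is a finite skew brace whose additive group is perfect and whose multiplicative group
is almost simple but not perfect. -/
theorem result : ∃ (B : Type) (_ : Finite B) (_ : AddGroup B) (_ : Group B),
    (∀ a b c : B, a * (b + c) = a * b + -a + a * c) ∧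
    commutator (Multiplicative B) = ⊤ ∧
    (∃ N : Subgroup B, N.Normal ∧ IsSimpleGroup N ∧ (∃ x y : N, x * y ≠ y * x) ∧
      Subgroup.centralizer (N : Set B) = ⊥) ∧
    commutator B ≠ ⊤ := by
  haveI hS : IsSimpleGroup S := PSL_simple (by simp)
  haveI : Group.IsPerfect SL5 := ⟨SL_perfect (by simp)⟩
  haveI hP : Group.IsPerfect S := inferInstance
  letI : AddGroup G := (P.trans Additive.ofMul).addGroup
  have hadd : ∀ a b : G, P (a + b) = P a * P b := fun a b => P.apply_symm_apply _
  have hneg : ∀ a : G, P (-a) = (P a)⁻¹ := fun a => P.apply_symm_apply _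
  refine ⟨G, Finite.of_equiv _ P.symm, inferInstance, inferInstance, fun a b c => ?_, ?_,
    ⟨(SemidirectProduct.inl : S →* G).range, ?_, ?_, ?_, ?_⟩, fun hc => ?_⟩
  · apply P.injective
    rw [hadd, hadd, hneg, P_mul, P_mul, P_mul, hadd, map_mul]
    group
  · haveI : Group.IsPerfect (S × A5) := ⟨by
      rw [commutator_def, ← Subgroup.top_prod_top, Subgroup.commutator_prod_prod,
        ← commutator_def, ← commutator_def, hP.commutator_eq_top,
        commutator_alternatingGroup_eq_top (by simp)]⟩
    let φ : S × A5 →* Multiplicative G := MonoidHom.mk' (fun x => Multiplicative.ofAdd (P.symm x))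
      fun x y => P.injective (by
        show P (P.symm (x * y)) = P (P.symm x + P.symm y)
        rw [hadd]; simp)
    exact (Group.IsPerfect.ofSurjective (f := φ)
      fun y => ⟨P y.toAdd, P.symm_apply_apply _⟩).commutator_eq_top
  · rw [SemidirectProduct.range_inl_eq_ker_rightHom]
    infer_instance
  · exact (MonoidHom.ofInjective SemidirectProduct.inl_injective).symm.isSimpleGroup
  · by_contra hn
    push Not at hn
    refine Group.IsPerfect.not_isMulCommutative S ⟨⟨fun x y => ?_⟩⟩
    apply (MonoidHom.ofInjective (SemidirectProduct.inl_injective (φ := al))).injective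
    rw [map_mul, map_mul, hn]
  · rw [eq_bot_iff]
    intro a ha
    have h1 : ∀ y : S, y * a.left = a.left * al a.right y := fun y => by
      simpa using congrArg SemidirectProduct.left (ha (SemidirectProduct.inl y) ⟨y, rfl⟩)
    have h2 := not_inner _ _ h1
    rw [h2, map_one] at h1
    have h3 : a.left ∈ Subgroup.center S := Subgroup.mem_center_iff.2 h1
    rw [Group.IsPerfect.center_quotient_center_eq_bot] at h3
    exact SemidirectProduct.ext h3 h2
  · have := Abelianization.commutator_subset_ker (nu.comp (SemidirectProduct.rightHom : G →* K))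
    rw [hc] at this
    exact absurd (this (Subgroup.mem_top (SemidirectProduct.inr ⟨0, 1⟩))) (by
      show ¬ (Multiplicative.ofAdd (1 : ZMod 12) = 1)
      decide)

end Pool.Agent.Results.MP_520f25_al.Exists
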